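import Pool.Agent.Lib.MP_688fd0_co.SQ2.IfaceW

/-!
TREE: a connected graph with an odd number of vertices has a spanning tree that is cut into paths of length two.
-/

set_option autoImplicit false

namespace Pool.Agent.Lib.MP_688fd0_co.SQ2.TreeP

universe u

variable {V : Type u}

/-- Points at distance at most `n` from `r`. -/
def lev (E : V → V → Prop) (r : V) : ℕ → V → Prop
  | 0, x => x = r
  | n + 1, x => lev E r n x ∨ ∃ y, lev E r n y ∧ E y x

theorem lev_mono (E : V → V → Prop) (r : V) {m n : ℕ} (h : m ≤ n) {x : V} (hx : lev E r m x) : lev E r n x := by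
  induction n, h using Nat.le_induction with
  | base => exact hx
  | succ n _ ih => exact Or.inl ih

/-- Parents and depths. -/
theorem exists_parent (E : V → V → Prop) (hs : ∀ x y, E x y → E y x)
    (hc : ∀ ρ : V → V → Prop, Equivalence ρ → (∀ x y, E x y → ρ x y) → ∀ x y, ρ x y) (r : V) :
    ∃ (par : V → V) (h : V → ℕ), ∀ x, x ≠ r → E x (par x) ∧ h x = h (par x) + 1 := by
  classical
  have hall : ∀ x, ∃ n, lev E r n x := by
    intro x
    have := hc (fun x y => (∃ n, lev E r n x) ↔ ∃ n, lev E r n y) ⟨fun _ => Iff.rfl, fun h => h.symm,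
      fun h h' => h.trans h'⟩ (fun x y hxy => ⟨fun ⟨n, hn⟩ => ⟨n + 1, Or.inr ⟨x, hn, hxy⟩⟩,
        fun ⟨n, hn⟩ => ⟨n + 1, Or.inr ⟨y, hn, hs _ _ hxy⟩⟩⟩) r x
    exact this.1 ⟨0, rfl⟩
  have hpar : ∀ x, x ≠ r → ∃ y, E x y ∧ Nat.find (hall x) = Nat.find (hall y) + 1 := by
    intro x hx
    have h1 := Nat.find_spec (hall x)
    obtain ⟨n, hn⟩ : ∃ n, Nat.find (hall x) = n + 1 := by
      refine ⟨Nat.find (hall x) - 1, ?_⟩
      have : Nat.find (hall x) ≠ 0 := by
        intro h0
        rw [h0] at h1
        exact hx h1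
      omega
    rw [hn] at h1
    have hnot : ¬ lev E r n x := Nat.find_min (hall x) (by omega)
    rcases h1 with h1 | ⟨y, hy, hyx⟩
    · exact (hnot h1).elim
    · refine ⟨y, hs _ _ hyx, ?_⟩
      rw [hn]
      have hle : Nat.find (hall y) ≤ n := Nat.find_min' (hall y) hy
      have hge : n ≤ Nat.find (hall y) := by
        by_contra hlt
        push_neg at hlt
        refine hnot (lev_mono E r hlt ?_)
        exact Or.inr ⟨y, Nat.find_spec (hall y), hyx⟩
      omega
  refine ⟨fun x => if hx : x = r then r else (hpar x hx).choose, fun x => Nat.find (hall x), fun x hx => ?_⟩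
  simp only [dif_neg hx]
  exact (hpar x hx).choose_spec

/-- A system of paths that covers `X`. -/
structure Sys (E : V → V → Prop) (h : V → ℕ) (r : V) (X : V → Prop) {N : ℕ} (c l m : Fin N → V)
    (rk : Fin N → ℕ) : Prop where
  mem : ∀ i, X (c i) ∧ X (l i) ∧ X (m i)
  cl : ∀ i, c i ≠ l i
  cm : ∀ i, c i ≠ m i
  lm : ∀ i, l i ≠ m i
  two : ∀ i, ∃ p : V → Prop, ((p (c i) ∧ p (l i)) ∨ (p (c i) ∧ p (m i)) ∨ (p (l i) ∧ p (m i))) ∧
    ∀ x, p x → ∀ j, j ≠ i → (x = c j ∨ x = l j ∨ x = m j) → rk j < rk i
  cov : ∀ ρ : V → V → Prop, Equivalence ρ → (∀ i, ρ (c i) (l i) ∧ ρ (c i) (m i)) → ∀ p, X p → ρ p r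
  e : ∀ i, E (c i) (l i) ∧ E (c i) (m i)
  h : ∀ i, (h (l i) = h (c i) + 1 ∨ h (c i) = h (l i) + 1) ∧ (h (m i) = h (c i) + 1 ∨ h (c i) = h (m i) + 1)

theorem Sys.ext {E : V → V → Prop} {h : V → ℕ} {r : V} {X X' D : V → Prop} {N : ℕ} {c l m : Fin N → V}
    {rk : Fin N → ℕ} (S : Sys E h r X' c l m rk) (c₀ l₀ m₀ : V) (hX : ∀ x, X x ↔ X' x ∨ D x)
    (hD : ∀ x, X' x → ¬ D x) (hmem : X c₀ ∧ X l₀ ∧ X m₀) (hDm : ∀ x, D x → x = c₀ ∨ x = l₀ ∨ x = m₀)
    (h3 : X' c₀ ∨ X' l₀ ∨ X' m₀)
    (h2 : (D c₀ ∧ D l₀) ∨ (D c₀ ∧ D m₀) ∨ (D l₀ ∧ D m₀)) (hcl : c₀ ≠ l₀) (hcm : c₀ ≠ m₀) (hlm : l₀ ≠ m₀)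
    (he : E c₀ l₀ ∧ E c₀ m₀)
    (hh : (h l₀ = h c₀ + 1 ∨ h c₀ = h l₀ + 1) ∧ (h m₀ = h c₀ + 1 ∨ h c₀ = h m₀ + 1)) :
    Sys E h r X (Fin.cons c₀ c : Fin (N + 1) → V) (Fin.cons l₀ l : Fin (N + 1) → V)
      (Fin.cons m₀ m : Fin (N + 1) → V) (Fin.cons 0 fun i => rk i + 1 : Fin (N + 1) → ℕ) where
  mem i := by
    refine Fin.cases ?_ (fun i => ?_) i
    · simpa using hmem
    · have := S.mem i
      simp only [Fin.cons_succ, hX]
      exact ⟨Or.inl this.1, Or.inl this.2.1, Or.inl this.2.2⟩
  cl i := by
    refine Fin.cases ?_ (fun i => ?_) i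
    · simpa using hcl
    · simpa using S.cl i
  cm i := by
    refine Fin.cases ?_ (fun i => ?_) i
    · simpa using hcm
    · simpa using S.cm i
  lm i := by
    refine Fin.cases ?_ (fun i => ?_) i
    · simpa using hlm
    · simpa using S.lm i
  two i := by
    refine Fin.cases ?_ (fun i => ?_) i
    · refine ⟨D, by simpa using h2, fun x hx j hj => ?_⟩
      obtain ⟨j, rfl⟩ := Fin.exists_succ_eq.2 hj
      intro hxj
      exfalso
      have hm := S.mem j
      simp only [Fin.cons_succ] at hxj
      rcases hxj with rfl | rfl | rfl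
      · exact hD _ hm.1 hx
      · exact hD _ hm.2.1 hx
      · exact hD _ hm.2.2 hx
    · obtain ⟨p, hp, hp'⟩ := S.two i
      refine ⟨p, by simpa using hp, fun x hx j => ?_⟩
      refine Fin.cases ?_ (fun j => ?_) j
      · intro _ _
        simp
      · intro hj hxj
        simp only [Fin.cons_succ] at hxj ⊢
        have := hp' x hx j (fun e => hj (by rw [e])) hxj
        omega
  cov ρ hρ hall p hp := by
    have hold : ∀ q, X' q → ρ q r := S.cov ρ hρ fun i => by simpa using hall i.succ
    have h0 : ρ c₀ l₀ ∧ ρ c₀ m₀ := by simpa using hall 0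
    have hc : ρ c₀ r := by
      rcases h3 with h3 | h3 | h3
      · exact hold _ h3
      · exact hρ.trans h0.1 (hold _ h3)
      · exact hρ.trans h0.2 (hold _ h3)
    rcases (hX p).1 hp with h | h
    · exact hold p h
    · rcases hDm p h with rfl | rfl | rfl
      · exact hc
      · exact hρ.trans (hρ.symm h0.1) hc
      · exact hρ.trans (hρ.symm h0.2) hc
  e i := by
    refine Fin.cases ?_ (fun i => ?_) i
    · simpa using he
    · simpa using S.e i
  h i := by
    refine Fin.cases ?_ (fun i => ?_) i
    · simpa using hh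
    · simpa using S.h i

theorem exists_sys [DecidableEq V] (E : V → V → Prop) (hs : ∀ x y, E x y → E y x) (r : V) (par : V → V) (h : V → ℕ)
    (hp : ∀ x, x ≠ r → E x (par x) ∧ h x = h (par x) + 1) :
    ∀ (n : ℕ) (X : Finset V), X.card = n → Odd n → r ∈ X → (∀ x ∈ X, x ≠ r → par x ∈ X) →
      ∃ (N : ℕ) (c l m : Fin N → V) (rk : Fin N → ℕ), Sys E h r (fun x => x ∈ X) c l m rk := by
  intro n
  induction n using Nat.strong_induction_on with
  | _ n ih =>
    intro X hcard hodd hr hclosed
    by_cases hn : n = 1
    · have hX : X = {r} := by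
        rw [hn, Finset.card_eq_one] at hcard
        obtain ⟨a, rfl⟩ := hcard
        rw [Finset.mem_singleton.1 hr]
      subst hX
      refine ⟨0, Fin.elim0, Fin.elim0, Fin.elim0, Fin.elim0, ?_⟩
      exact
        { mem := fun i => i.elim0
          cl := fun i => i.elim0
          cm := fun i => i.elim0
          lm := fun i => i.elim0
          two := fun i => i.elim0
          cov := fun ρ hρ _ p hp => by
            rw [Finset.mem_singleton.1 hp]
            exact hρ.refl r
          e := fun i => i.elim0
          h := fun i => i.elim0 }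
    have hn3 : 3 ≤ n := by
      obtain ⟨k, hk⟩ := hodd
      omega
    -- a deepest vertex
    obtain ⟨v, hv, hvmax⟩ := Finset.exists_max_image X h ⟨r, hr⟩
    have hvr : v ≠ r := by
      rintro rfl
      -- another vertex would be deeper than its parent
      have hall : ∀ x ∈ X, x = v := by
        intro x hx
        by_contra hxr
        have h1 := (hp x hxr).2
        have h2 := hvmax x hx
        -- descend to the root
        have hdesc : ∀ k, ∀ y ∈ X, y ≠ v → h y ≤ k → h v < h y := by
          intro k
          induction k with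
          | zero =>
            intro y hy hyv hk
            have := (hp y hyv).2
            omega
          | succ k ihk =>
            intro y hy hyv hk
            have hy1 := (hp y hyv).2
            by_cases hpy : par y = v
            · rw [hpy] at hy1
              omega
            · have := ihk (par y) (hclosed y hy hyv) hpy (by omega)
              omega
        have := hdesc (h x) x hx hxr le_rfl
        omega
      have : X ⊆ {v} := fun x hx => Finset.mem_singleton.2 (hall x hx)
      have := Finset.card_le_card this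
      simp at this
      omega
    have hu := hclosed v hv hvr
    have hhv := (hp v hvr).2
    have hEv := (hp v hvr).1
    have hvu : par v ≠ v := by
      intro e
      rw [e] at hhv
      omega
    -- a vertex of maximal depth is nobody's parent
    have hleaf : ∀ w ∈ X, h w = h v → ∀ y ∈ X, y ≠ r → par y ≠ w := by
      intro w _ hw y hy hyr e
      have h1 := (hp y hyr).2
      have h2 := hvmax y hy
      rw [e] at h1
      omega
    by_cases hchild : ∃ v' ∈ X, v' ≠ v ∧ v' ≠ r ∧ par v' = par v
    · obtain ⟨v', hv', hne, hv'r, hpar⟩ := hchild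
      have hhv' := (hp v' hv'r).2
      have hEv' := (hp v' hv'r).1
      rw [hpar] at hhv' hEv'
      have hd : h v' = h v := by omega
      have hv'u : par v ≠ v' := by
        intro e
        rw [e] at hhv'
        omega
      have hcard' : ((X.erase v).erase v').card = n - 2 := by
        rw [Finset.card_erase_of_mem (Finset.mem_erase.2 ⟨hne, hv'⟩), Finset.card_erase_of_mem hv, hcard]
        omega
      have hmem' : ∀ x, x ∈ (X.erase v).erase v' ↔ x ≠ v' ∧ x ≠ v ∧ x ∈ X := by
        intro x
        simp
      obtain ⟨N, c, l, m, rk, S⟩ := ih (n - 2) (by omega) ((X.erase v).erase v') hcard'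
        (by
          obtain ⟨k, hk⟩ := hodd
          exact ⟨k - 1, by omega⟩)
        ((hmem' r).2 ⟨hv'r.symm, hvr.symm, hr⟩)
        (fun x hx hxr => by
          obtain ⟨_, _, hxX⟩ := (hmem' x).1 hx
          exact (hmem' _).2 ⟨hleaf v' hv' hd x hxX hxr, hleaf v hv rfl x hxX hxr, hclosed x hxX hxr⟩)
      refine ⟨N + 1, _, _, _, _, S.ext (X := fun x => x ∈ X) (D := fun x => x = v ∨ x = v') (par v) v v' ?_ ?_
        ⟨hu, hv, hv'⟩ ?_ ?_ ?_ hvu hv'u hne.symm ⟨hs _ _ hEv, hs _ _ hEv'⟩ ⟨Or.inl hhv, Or.inl hhv'⟩⟩
      · intro x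
        simp only [hmem']
        constructor
        · intro hx
          by_cases h1 : x = v
          · exact Or.inr (Or.inl h1)
          · by_cases h2 : x = v'
            · exact Or.inr (Or.inr h2)
            · exact Or.inl ⟨h2, h1, hx⟩
        · rintro (⟨_, _, hx⟩ | rfl | rfl)
          · exact hx
          · exact hv
          · exact hv'
      · rintro x hx (rfl | rfl)
        · exact ((hmem' _).1 hx).2.1 rfl
        · exact ((hmem' _).1 hx).1 rfl
      · rintro x (rfl | rfl)
        · exact Or.inr (Or.inl rfl)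
        · exact Or.inr (Or.inr rfl)
      · exact Or.inl ((hmem' _).2 ⟨hv'u, hvu, hu⟩)
      · exact Or.inr (Or.inr ⟨Or.inl rfl, Or.inr rfl⟩)
    · push_neg at hchild
      have hur : par v ≠ r := by
        intro e
        -- everything is the root or a child of the root
        have hdep : ∀ x ∈ X, x ≠ r → par x = r := by
          intro x hx hxr
          by_contra hpx
          have h1 := (hp x hxr).2
          have h2 := hvmax x hx
          have hdesc : ∀ k, ∀ y ∈ X, y ≠ r → h y ≤ k → h r < h y := by
            intro k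
            induction k with
            | zero =>
              intro y hy hyv hk
              have := (hp y hyv).2
              omega
            | succ k ihk =>
              intro y hy hyv hk
              have hy1 := (hp y hyv).2
              by_cases hpy : par y = r
              · rw [hpy] at hy1
                omega
              · have := ihk (par y) (hclosed y hy hyv) hpy (by omega)
                omega
          have h3 := hdesc (h (par x)) (par x) (hclosed x hx hxr) hpx le_rfl
          rw [e] at hhv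
          omega
        have hsub : X ⊆ {r, v} := by
          intro x hx
          rw [Finset.mem_insert, Finset.mem_singleton]
          by_cases hxr : x = r
          · exact Or.inl hxr
          · right
            by_contra hxv
            exact hchild x hx hxv hxr (by rw [hdep x hx hxr, e])
        have := Finset.card_le_card hsub
        have h2 : ({r, v} : Finset V).card ≤ 2 := Finset.card_le_two
        omega
      have hw := hclosed (par v) hu hur
      have hhu := (hp (par v) hur).2
      have hEu := (hp (par v) hur).1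
      have hwu : par v ≠ par (par v) := by
        intro e
        rw [← e] at hhu
        omega
      have hwv : v ≠ par (par v) := by
        intro e
        rw [← e] at hhu
        omega
      have hcard' : ((X.erase v).erase (par v)).card = n - 2 := by
        rw [Finset.card_erase_of_mem (Finset.mem_erase.2 ⟨hvu, hu⟩), Finset.card_erase_of_mem hv, hcard]
        omega
      have hmem' : ∀ x, x ∈ (X.erase v).erase (par v) ↔ x ≠ par v ∧ x ≠ v ∧ x ∈ X := by
        intro x
        simp
      obtain ⟨N, c, l, m, rk, S⟩ := ih (n - 2) (by omega) ((X.erase v).erase (par v)) hcard'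
        (by
          obtain ⟨k, hk⟩ := hodd
          exact ⟨k - 1, by omega⟩)
        ((hmem' r).2 ⟨hur.symm, hvr.symm, hr⟩)
        (fun x hx hxr => by
          obtain ⟨_, hxv, hxX⟩ := (hmem' x).1 hx
          exact (hmem' _).2 ⟨hchild x hxX hxv hxr, hleaf v hv rfl x hxX hxr, hclosed x hxX hxr⟩)
      refine ⟨N + 1, _, _, _, _, S.ext (X := fun x => x ∈ X) (D := fun x => x = v ∨ x = par v) (par v) v
        (par (par v)) ?_ ?_ ⟨hu, hv, hw⟩ ?_ ?_ ?_ hvu hwu hwv ⟨hs _ _ hEv, hEu⟩ ⟨Or.inl hhv, Or.inr hhu⟩⟩
      · intro x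
        simp only [hmem']
        constructor
        · intro hx
          by_cases h1 : x = v
          · exact Or.inr (Or.inl h1)
          · by_cases h2 : x = par v
            · exact Or.inr (Or.inr h2)
            · exact Or.inl ⟨h2, h1, hx⟩
        · rintro (⟨_, _, hx⟩ | rfl | rfl)
          · exact hx
          · exact hv
          · exact hu
      · rintro x hx (rfl | rfl)
        · exact ((hmem' _).1 hx).2.1 rfl
        · exact ((hmem' _).1 hx).1 rfl
      · rintro x (rfl | rfl)
        · exact Or.inr (Or.inl rfl)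
        · exact Or.inl rfl
      · exact Or.inr (Or.inr ((hmem' _).2 ⟨hwu.symm, hwv.symm, hw⟩))
      · exact Or.inl ⟨Or.inr rfl, Or.inl rfl⟩

end Pool.Agent.Lib.MP_688fd0_co.SQ2.TreeP

namespace Pool.Agent.Lib.MP_688fd0_co.SQ2

universe u

open TreeP

theorem tree : TreeS.{u} := by
  intro V _ E hs _ hc hodd
  classical
  have hne : Nonempty V := by
    rw [← Fintype.card_pos_iff]
    exact hodd.pos
  obtain ⟨r⟩ := hne
  obtain ⟨par, h, hp⟩ := exists_parent E hs hc r
  obtain ⟨N, c, l, m, rk, S⟩ := exists_sys E hs r par h hp (Fintype.card V) Finset.univ Finset.card_univ hodd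
    (Finset.mem_univ r) (fun x _ _ => Finset.mem_univ _)
  have hpar : ∀ a b : ℕ, (a = b + 1 ∨ b = a + 1) → decide (a % 2 = 0) = !decide (b % 2 = 0) := by
    intro a b hab
    by_cases hb : b % 2 = 0
    · have ha : ¬ a % 2 = 0 := by omega
      simp [ha, hb]
    · have ha : a % 2 = 0 := by omega
      simp [ha, hb]
  refine ⟨fun x => decide (h x % 2 = 0), N, c, l, m, rk, ?_, S.e, fun i => ⟨hpar _ _ (S.h i).1, hpar _ _ (S.h i).2⟩⟩
  exact
    { cl := S.cl
      cm := S.cm
      lm := S.lm
      two := S.two
      cov := fun ρ hρ hall p q =>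
        hρ.trans (S.cov ρ hρ hall p (Finset.mem_univ p)) (hρ.symm (S.cov ρ hρ hall q (Finset.mem_univ q))) }

end Pool.Agent.Lib.MP_688fd0_co.SQ2
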