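import Pool.Agent.Lib.MP_688fd0_co.SQ2.Iface

/-!
Row KAP (helper80): the crossed homomorphism `κ` does not vanish modulo any prime of `C`.
-/

set_option autoImplicit false

namespace Pool.Agent.Lib.MP_688fd0_co.SQ2

open Pool.Agent.Lib.MP_688fd0_co.OSF

namespace KapP

theorem red_eq' {m p : ℕ} [NeZero m] (h : p ∣ m) (x : ZMod m) : red h x = (x.val : ZMod p) := by
  unfold red
  conv_lhs => rw [← ZMod.natCast_zmod_val x]
  exact map_natCast _ _

/-- `ν` is a crossed homomorphism. -/
theorem crossed {G : Type} [Group G] [Finite G] (C : Subgroup G) [C.Normal]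
    (s : G ⧸ C →* G) (z : G) (chi : G ⧸ C →* ZMod (Nat.card C)) (ν : G → ZMod (Nat.card C))
    (ho : orderOf z = Nat.card C) (hconj : ∀ q, s q * z * (s q)⁻¹ = z ^ (chi q).val)
    (hν : ∀ g, g = z ^ (ν g).val * s (QuotientGroup.mk' C g)) (g h : G) :
    ν (g * h) = ν g + chi (QuotientGroup.mk' C g) * ν h := by
  have : NeZero (Nat.card C) := ⟨Nat.card_pos.ne'⟩
  have h1 : ∀ n : ℕ, s (QuotientGroup.mk' C g) * z ^ n =
      z ^ ((chi (QuotientGroup.mk' C g)).val * n) * s (QuotientGroup.mk' C g) := by
    intro n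
    have e : (s (QuotientGroup.mk' C g) * z * (s (QuotientGroup.mk' C g))⁻¹) ^ n =
        s (QuotientGroup.mk' C g) * z ^ n * (s (QuotientGroup.mk' C g))⁻¹ := conj_pow
    rw [hconj, ← pow_mul] at e
    rw [e, inv_mul_cancel_right]
  have h2 : z ^ (ν (g * h)).val * s (QuotientGroup.mk' C (g * h)) =
      z ^ ((ν g).val + (chi (QuotientGroup.mk' C g)).val * (ν h).val) * s (QuotientGroup.mk' C (g * h)) := by
    rw [← hν (g * h)]
    conv_lhs => rw [hν g, hν h]
    rw [map_mul, map_mul, pow_add]
    calc z ^ (ν g).val * s (QuotientGroup.mk' C g) * (z ^ (ν h).val * s (QuotientGroup.mk' C h))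
        = z ^ (ν g).val * (s (QuotientGroup.mk' C g) * z ^ (ν h).val) * s (QuotientGroup.mk' C h) := by
          simp only [mul_assoc]
      _ = _ := by rw [h1]; simp only [mul_assoc]
  have h3 := mul_right_cancel h2
  rw [pow_inj_mod, ho] at h3
  have h4 : (((ν (g * h)).val : ℕ) : ZMod (Nat.card C)) =
      (((ν g).val + (chi (QuotientGroup.mk' C g)).val * (ν h).val : ℕ) : ZMod (Nat.card C)) :=
    (ZMod.natCast_eq_natCast_iff' _ _ _).2 h3
  push_cast [ZMod.natCast_zmod_val] at h4
  exact h4

end KapP

open KapP in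
theorem kap : KapS := by
  intro G _ _ C _ A a s z chi ν hs hz ho hconj hν hgen hncen hE p hp
  by_contra hcon
  push Not at hcon
  have : NeZero (Nat.card C) := ⟨Nat.card_pos.ne'⟩
  have hpp : p.Prime := Nat.prime_of_mem_primeFactors hp
  have hpd : p ∣ Nat.card C := Nat.dvd_of_mem_primeFactors hp
  have : Fact p.Prime := ⟨hpp⟩
  set f : ZMod (Nat.card C) →+* ZMod p := red (Nat.dvd_of_mem_primeFactors hp) with hf
  have hcr := crossed C s z chi ν ho hconj hν
  -- reduction modulo `p`
  let n : G → ZMod p := fun g => f (ν g)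
  let χ : G → ZMod p := fun g => f (chi (QuotientGroup.mk' C g))
  have nmul : ∀ g h, n (g * h) = n g + χ g * n h := fun g h => by
    show f _ = _
    rw [hcr, map_add, map_mul]
  have χmul : ∀ g h, χ (g * h) = χ g * χ h := fun g h => by
    show f _ = _
    rw [map_mul, map_mul, map_mul]
  have χ1 : χ 1 = 1 := by
    show f _ = _
    rw [map_one, map_one, map_one]
  have n1 : n 1 = 0 := by
    have := nmul 1 1
    rw [mul_one, χ1, one_mul] at this
    exact left_eq_add.1 this
  have χinv : ∀ g, χ g * χ g⁻¹ = 1 := fun g => by rw [← χmul, mul_inv_cancel, χ1]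
  have ninv : ∀ g, n g + χ g * n g⁻¹ = 0 := fun g => by rw [← nmul, mul_inv_cancel, n1]
  have hzC : z ∈ C := by rw [← hz]; exact Subgroup.mem_zpowers z
  have hmz : QuotientGroup.mk' C z = 1 := by
    rw [QuotientGroup.mk'_apply, QuotientGroup.eq_one_iff]; exact hzC
  -- `n z = 1`, `χ z = 1`
  have χz : χ z = 1 := by
    show f (chi (QuotientGroup.mk' C z)) = 1
    rw [hmz, map_one, map_one]
  have nz : n z = 1 := by
    have e := hν z
    rw [hmz, map_one, mul_one] at e
    have e1 : z ^ 1 = z ^ (ν z).val := by rw [pow_one]; exact e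
    rw [pow_inj_mod, ho] at e1
    have e2 : ((1 : ℕ) : ZMod (Nat.card C)) = (((ν z).val : ℕ) : ZMod (Nat.card C)) :=
      (ZMod.natCast_eq_natCast_iff' _ _ _).2 e1
    rw [ZMod.natCast_zmod_val, Nat.cast_one] at e2
    show f (ν z) = 1
    rw [← e2, map_one]
  -- `κ` vanishes on `A`, hence everywhere
  have hk : ∀ g, (χ a - 1) * n g - (χ g - 1) * n a = 0 := by
    intro g
    have hg : g ∈ Subgroup.closure A := by rw [hgen]; trivial
    refine Subgroup.closure_induction (p := fun g _ => (χ a - 1) * n g - (χ g - 1) * n a = 0) ?_ ?_ ?_ ?_ hg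
    · intro t ht
      have := hcon t ht
      rw [map_sub, map_mul, map_mul, map_sub, map_sub, map_one] at this
      exact this
    · rw [n1, χ1]; ring
    · intro x y _ _ hx hy
      rw [nmul, χmul]
      linear_combination hx + χ x * hy
    · intro x _ hx
      have e1 := ninv x
      have e2 := χinv x
      have e3 : χ x * ((χ a - 1) * n x⁻¹ - (χ x⁻¹ - 1) * n a) = 0 := by
        linear_combination (χ a - 1) * e1 - n a * e2 - hx
      rcases mul_eq_zero.1 e3 with h | h
      · rw [h, zero_mul] at e2
        exact absurd e2 zero_ne_one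
      · exact h
  have χa : χ a = 1 := by
    have := hk z
    rw [nz, χz] at this
    linear_combination this
  have hk2 : ∀ g, (χ g - 1) * n a = 0 := by
    intro g
    have := hk g
    rw [χa] at this
    linear_combination -this
  -- `n a = 0`, since `C` has no central element of order `p`
  have na : n a = 0 := by
    by_contra hna
    have hχ : ∀ g, χ g = 1 := by
      intro g
      rcases mul_eq_zero.1 (hk2 g) with h | h
      · linear_combination h
      · exact absurd h hna
    obtain ⟨m', hm'⟩ := hpd
    have hm0 : 0 < m' := by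
      rcases Nat.eq_zero_or_pos m' with h | h
      · rw [h, mul_zero] at hm'
        exact absurd hm' Nat.card_pos.ne'
      · exact h
    have hone : z ^ m' = 1 := by
      refine hncen (z ^ m') (Subgroup.pow_mem _ hzC m') ?_
      intro g
      have hc : ∀ q, s q * z ^ m' = z ^ m' * s q := by
        intro q
        obtain ⟨g', rfl⟩ := QuotientGroup.mk'_surjective C q
        have e : (s (QuotientGroup.mk' C g') * z * (s (QuotientGroup.mk' C g'))⁻¹) ^ m' =
            s (QuotientGroup.mk' C g') * z ^ m' * (s (QuotientGroup.mk' C g'))⁻¹ := conj_pow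
        rw [hconj, ← pow_mul] at e
        have e1 : z ^ ((chi (QuotientGroup.mk' C g')).val * m') = z ^ m' := by
          rw [pow_inj_mod, ho]
          have e2 : f (chi (QuotientGroup.mk' C g')) = 1 := hχ g'
          have e3 : (((chi (QuotientGroup.mk' C g')).val : ℕ) : ZMod p) = ((1 : ℕ) : ZMod p) := by
            rw [← red_eq' (Nat.dvd_of_mem_primeFactors hp), Nat.cast_one]
            exact e2
          rw [ZMod.natCast_eq_natCast_iff] at e3
          have e4 := e3.mul_right' m'
          rw [one_mul] at e4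
          have e5 : (chi (QuotientGroup.mk' C g')).val * m' % (p * m') = m' % (p * m') := e4
          rw [← hm'] at e5
          exact e5
        rw [e1] at e
        conv_rhs => rw [e]
        rw [inv_mul_cancel_right]
      rw [hν g]
      symm
      calc z ^ (ν g).val * s (QuotientGroup.mk' C g) * z ^ m'
          = z ^ (ν g).val * (s (QuotientGroup.mk' C g) * z ^ m') := mul_assoc _ _ _
        _ = z ^ (ν g).val * (z ^ m' * s (QuotientGroup.mk' C g)) := by rw [hc]
        _ = z ^ m' * (z ^ (ν g).val * s (QuotientGroup.mk' C g)) := by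
          rw [← mul_assoc, ← mul_assoc, ← pow_add, ← pow_add, add_comm]
    have hd := orderOf_dvd_of_pow_eq_one hone
    rw [ho, hm'] at hd
    have := Nat.le_of_dvd hm0 hd
    have h2 := hpp.two_le
    nlinarith
  -- the kernel
  let K : Subgroup G :=
    { carrier := {g | n g = 0 ∧ χ g = 1}
      mul_mem' := by
        rintro x y ⟨h1, h2⟩ ⟨h3, h4⟩
        refine ⟨?_, ?_⟩
        · rw [nmul, h1, h3, mul_zero, add_zero]
        · rw [χmul, h2, h4, mul_one]
      one_mem' := ⟨n1, χ1⟩
      inv_mem' := by
        rintro x ⟨h1, h2⟩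
        have e1 := ninv x
        have e2 := χinv x
        rw [h2, one_mul] at e2
        rw [h1, h2, one_mul, zero_add] at e1
        exact ⟨e1, e2⟩ }
  have hKn : K.Normal := by
    refine ⟨?_⟩
    rintro x ⟨h1, h2⟩ g
    refine ⟨?_, ?_⟩
    · rw [nmul, nmul, χmul, h1, h2, mul_zero, add_zero, mul_one]
      exact ninv g
    · rw [χmul, χmul, h2, mul_one]
      exact χinv g
  have hEK : Ecl a ≤ K := by
    unfold Ecl
    have := hKn
    refine Subgroup.normalClosure_le_normal ?_
    rintro x ⟨g, rfl⟩
    have e1 := ninv g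
    have e2 := χinv g
    have e3 := ninv a
    have e4 := χinv a
    rw [na, χa, one_mul, zero_add] at e3
    rw [χa, one_mul] at e4
    refine ⟨?_, ?_⟩
    · simp only [nmul, χmul, na, χa, e3, e4]
      linear_combination e1
    · simp only [χmul, χa, e4]
      linear_combination e2
  have hzK : z ∈ K := hEK (hE hzC)
  have h0 : n z = 0 := hzK.1
  rw [nz] at h0
  exact one_ne_zero h0

end Pool.Agent.Lib.MP_688fd0_co.SQ2
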